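import Pool.Agent.Mob.Stmts2

/-! # Metal-insulator transport transition, module KST: from weakly good cells to a good cell -/

set_option autoImplicit false
set_option linter.unusedSectionVars false

open MeasureTheory ProbabilityTheory Function

open scoped ENNReal BigOperators InnerProductSpace

noncomputable section

namespace Pool.Agent.Mob.H21

open Pool.Agent.Anderson Pool.Agent.Loc Pool.Agent.Helper54.Bal Pool.Agent.Mob

variable {d : ℕ}

/-- the geometric resolvent identity with a row sum -/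
theorem geo_row {V : Site d → ℝ} {Λ A : Finset (Site d)} {E : ℝ} (hA : A ⊆ Λ)
    (h : (RM V Λ E).det ≠ 0) (hA' : (RM V A E).det ≠ 0) {x y : Site d} (hx : x ∈ A)
    (hy : y ∈ Λ \ A) (P : Site d → Prop) [DecidablePred P] {b : ℝ} (hb : 0 ≤ b)
    (hab : ∀ u ∈ A, ∀ u' ∈ Λ \ A, hop u u' ≠ 0 → P u ∧ |gr V Λ E u' y| ≤ b) :
    |gr V Λ E x y| ≤ (∑ u ∈ A.filter P, |gr V A E x u|) * (2 * d * b) := by
  rw [geo1 hA h hA' hx hy]
  have h1 : ∀ u ∈ A, ∀ u' ∈ Λ \ A, |gr V A E x u * hop u u' * gr V Λ E u' y| ≤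
      (if P u then |gr V A E x u| else 0) * (hop u u' * b) := by
    intro u hu u' hu'
    by_cases hh : hop u u' = 0
    · rw [hh]
      simp
    · obtain ⟨h2, h3⟩ := hab u hu u' hu' hh
      rw [abs_mul, abs_mul, abs_of_nonneg (hop_nonneg u u'), if_pos h2]
      have h4 := hop_nonneg u u'
      calc |gr V A E x u| * hop u u' * |gr V Λ E u' y| ≤ |gr V A E x u| * hop u u' * b := by
            gcongr
        _ = |gr V A E x u| * (hop u u' * b) := by ring
  calc |∑ u ∈ A, ∑ u' ∈ Λ \ A, gr V A E x u * hop u u' * gr V Λ E u' y|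
      ≤ ∑ u ∈ A, |∑ u' ∈ Λ \ A, gr V A E x u * hop u u' * gr V Λ E u' y| :=
        Finset.abs_sum_le_sum_abs _ _
    _ ≤ ∑ u ∈ A, ∑ u' ∈ Λ \ A, |gr V A E x u * hop u u' * gr V Λ E u' y| :=
        Finset.sum_le_sum fun u _ => Finset.abs_sum_le_sum_abs _ _
    _ ≤ ∑ u ∈ A, ∑ u' ∈ Λ \ A, (if P u then |gr V A E x u| else 0) * (hop u u' * b) :=
        Finset.sum_le_sum fun u hu => Finset.sum_le_sum fun u' hu' => h1 u hu u' hu'
    _ = ∑ u ∈ A, (if P u then |gr V A E x u| else 0) * ((∑ u' ∈ Λ \ A, hop u u') * b) := by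
        apply Finset.sum_congr rfl
        intro u _
        rw [← Finset.mul_sum, ← Finset.sum_mul]
    _ ≤ ∑ u ∈ A, (if P u then |gr V A E x u| else 0) * (2 * d * b) := by
        apply Finset.sum_le_sum
        intro u _
        apply mul_le_mul_of_nonneg_left
        · exact mul_le_mul_of_nonneg_right (sum_hop_le u _) hb
        · split_ifs
          · exact abs_nonneg _
          · exact le_refl _
    _ = (∑ u ∈ A.filter P, |gr V A E x u|) * (2 * d * b) := by
        rw [← Finset.sum_mul, Finset.sum_filter]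

/-- the cell of a site -/
theorem exists_cell {c v : Site d} {ℓ R : ℕ} (hℓ : 1 ≤ ℓ) (h : sd c v ≤ R * ℓ) :
    ∃ k ∈ box (0 : Site d) R, v ∈ box (fun j => c j + (ℓ : ℤ) * k j) ℓ ∧
      sd c (fun j => c j + (ℓ : ℤ) * k j) ≤ R * ℓ := by
  have hℓ' : (0 : ℤ) < ℓ := by exact_mod_cast hℓ
  have h1 : ∀ j, |c j - v j| ≤ R * ℓ := by
    intro j
    have := sd_le_iff.1 h j
    exact_mod_cast this
  let k : Site d := fun j => (v j - c j) / (ℓ : ℤ)
  have hk1 : ∀ j, (ℓ : ℤ) * k j ≤ v j - c j := fun j => Int.mul_ediv_self_le hℓ'.ne'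
  have hk2 : ∀ j, v j - c j < (ℓ : ℤ) * k j + ℓ := fun j => by
    have := Int.lt_mul_ediv_self_add (x := v j - c j) hℓ'
    exact this
  have hk3 : ∀ j, |k j| ≤ R := by
    intro j
    obtain ⟨h2, h3⟩ := abs_le.1 (h1 j)
    have h4 := hk1 j
    have h5 := hk2 j
    rw [abs_le]
    constructor
    · by_contra hc
      push Not at hc
      have h6 : k j ≤ -(R : ℤ) - 1 := by omega
      have h7 : (ℓ : ℤ) * k j ≤ ℓ * (-(R : ℤ) - 1) := mul_le_mul_of_nonneg_left h6 hℓ'.le
      nlinarith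
    · by_contra hc
      push Not at hc
      have h6 : (R : ℤ) + 1 ≤ k j := by omega
      have h7 : (ℓ : ℤ) * (R + 1) ≤ ℓ * k j := mul_le_mul_of_nonneg_left h6 hℓ'.le
      nlinarith
  refine ⟨k, ?_, ?_, ?_⟩
  · rw [mem_box, sd_le_iff]
    intro j
    rw [Pi.zero_apply, zero_sub, abs_neg]
    exact hk3 j
  · rw [mem_box, sd_le_iff]
    intro j
    have h4 := hk1 j
    have h5 := hk2 j
    rw [abs_le]
    constructor <;> linarith
  · rw [sd_le_iff]
    intro j
    have h2 : c j - (c j + (ℓ : ℤ) * k j) = -((ℓ : ℤ) * k j) := by ring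
    rw [h2, abs_neg, abs_mul, Nat.abs_cast]
    push_cast
    have := mul_le_mul_of_nonneg_left (hk3 j) hℓ'.le
    linarith [mul_comm (ℓ : ℤ) (R : ℤ)]

/-- KST -/
theorem kst : KstStmt := by
  intro d V c E γ τ K ℓ hℓ hK hγ hτ hcell hdet hτi
  refine ⟨hdet, ?_⟩
  obtain ⟨Λ, hΛ⟩ : ∃ Λ, Λ = box c (3 * (8 * K * ℓ)) := ⟨_, rfl⟩
  rw [← hΛ] at hdet hτi ⊢
  have hKℓ : ℓ ≤ K * ℓ := Nat.le_mul_of_pos_left ℓ hK
  have hassoc : 8 * K * ℓ = 8 * (K * ℓ) := by ring
  have hKK : K ≤ K * ℓ := Nat.le_mul_of_pos_right K hℓ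
  intro x hx y hy hxy
  -- the iteration
  have key : ∀ j : ℕ, j ≤ K → ∀ x' : Site d, sd c x' ≤ 8 * (K * ℓ) + (K - j) * (4 * ℓ + 1) →
      8 * (K * ℓ) ≤ sd x' y + (K - j) * (4 * ℓ + 1) →
      |gr V Λ E x' y| ≤ (2 * d * γ) ^ j * τ := by
    intro j
    induction j with
    | zero =>
      intro _ x' _ _
      rw [pow_zero, one_mul]
      exact hτi x' y
    | succ j ih =>
      intro hj x' hx' hxy'
      have hs1 : (K - (j + 1)) * (4 * ℓ + 1) + (4 * ℓ + 1) = (K - j) * (4 * ℓ + 1) := by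
        have : K - j = (K - (j + 1)) + 1 := by omega
        rw [this]
        ring
      have hs2 : (K - j) * (4 * ℓ + 1) ≤ 5 * (K * ℓ) := by
        have h1 : (K - j) * (4 * ℓ + 1) ≤ K * (4 * ℓ + 1) :=
          Nat.mul_le_mul_right _ (Nat.sub_le K j)
        have h2 : K * (4 * ℓ + 1) = 4 * (K * ℓ) + K := by ring
        omega
      obtain ⟨k, hk, hxk, hck⟩ := exists_cell (R := 13 * K) hℓ (c := c) (v := x') (by
        have : 13 * K * ℓ = 13 * (K * ℓ) := by ring
        rw [this]
        omega)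
      obtain ⟨g1, g2⟩ := hcell k (box_mono 0 (by omega) hk)
      obtain ⟨c', hc'⟩ : ∃ c' : Site d, c' = fun j => c j + (ℓ : ℤ) * k j := ⟨_, rfl⟩
      rw [← hc'] at g1 g2 hxk hck
      have h13 : 13 * K * ℓ = 13 * (K * ℓ) := by ring
      rw [h13] at hck
      have hxk' : sd c' x' ≤ ℓ := by rwa [mem_box] at hxk
      have hsub : box c' (3 * ℓ) ⊆ Λ := by
        intro w hw
        rw [hΛ, mem_box]
        rw [mem_box] at hw
        have := sd_triangle c c' w
        omega
      have hyA : y ∈ Λ \ box c' (3 * ℓ) := by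
        rw [Finset.mem_sdiff, mem_box]
        refine ⟨hy, fun h => ?_⟩
        have h1 := sd_triangle x' c' y
        have h2 := sd_comm x' c'
        omega
      have hM : (0 : ℝ) ≤ (2 * d * γ) ^ j * τ := by positivity
      have h3 := geo_row hsub hdet g1 (x := x') (y := y) (by rw [mem_box]; omega) hyA
        (fun u => sd c' u = 3 * ℓ) hM (by
          intro u hu u' hu' hh
          rw [mem_box] at hu
          rw [Finset.mem_sdiff, mem_box] at hu'
          have h4 := sd_of_hop hh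
          have h5 := sd_triangle c' u u'
          refine ⟨by omega, ih (by omega) u' ?_ ?_⟩
          · have h6 := sd_triangle c x' u'
            have h7 := sd_triangle x' c' u'
            have h8 := sd_comm x' c'
            omega
          · have h6 := sd_triangle x' u' y
            have h7 := sd_triangle x' c' u'
            have h8 := sd_comm x' c'
            omega)
      refine h3.trans ?_
      have h4 := g2 x' (by rw [mem_box]; exact hxk')
      calc (∑ u ∈ (box c' (3 * ℓ)).filter (fun u => sd c' u = 3 * ℓ),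
            |gr V (box c' (3 * ℓ)) E x' u|) * (2 * d * ((2 * d * γ) ^ j * τ))
          ≤ γ * (2 * d * ((2 * d * γ) ^ j * τ)) := by
            apply mul_le_mul_of_nonneg_right h4
            positivity
        _ = (2 * d * γ) ^ (j + 1) * τ := by ring
  have h1 := key K le_rfl x (by
    rw [mem_box] at hx
    rw [hassoc] at hx
    omega) (by rw [hassoc] at hxy; omega)
  exact h1

end Pool.Agent.Mob.H21
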